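import Mathlib

/-!
# Averages over finite types, short diagonals, product spaces and random walks

`av f` is the average of `f` over a finite type. For functions with values in a real inner product
space the inequality of short diagonals gives
* `es` : an Efron–Stein type inequality on powers of a finite set,
* `en_double` : the energy of a walk with doubled length is at most twice the energy.
-/

set_option autoImplicit false

namespace Pool.Agent.W532.Union2

open scoped BigOperators
open Finset

universe u v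

/-- The average of a function on a finite type. -/
noncomputable def av {T : Type u} [Fintype T] (f : T → ℝ) : ℝ := (∑ t, f t) / Fintype.card T

section Av

variable {T : Type u} [Fintype T] {S : Type v} [Fintype S]

lemma av_const [Nonempty T] (c : ℝ) : av (fun _ : T => c) = c := by
  have h : (0 : ℝ) < Fintype.card T := by exact_mod_cast Fintype.card_pos
  unfold av
  rw [Finset.sum_const, Finset.card_univ, nsmul_eq_mul]
  field_simp

lemma av_mono {f g : T → ℝ} (h : ∀ t, f t ≤ g t) : av f ≤ av g := by
  unfold av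
  exact div_le_div_of_nonneg_right (Finset.sum_le_sum fun t _ => h t) (Nat.cast_nonneg _)

lemma av_add (f g : T → ℝ) : av (fun t => f t + g t) = av f + av g := by
  unfold av
  rw [Finset.sum_add_distrib, add_div]

lemma av_sub (f g : T → ℝ) : av (fun t => f t - g t) = av f - av g := by
  unfold av
  rw [Finset.sum_sub_distrib, sub_div]

lemma av_mul_left (c : ℝ) (f : T → ℝ) : av (fun t => c * f t) = c * av f := by
  unfold av
  rw [← Finset.mul_sum, mul_div_assoc]

lemma av_mul_right (c : ℝ) (f : T → ℝ) : av (fun t => f t * c) = av f * c := by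
  unfold av
  rw [← Finset.sum_mul]
  ring

lemma av_sum {ι : Type*} (s : Finset ι) (f : ι → T → ℝ) :
    av (fun t => ∑ i ∈ s, f i t) = ∑ i ∈ s, av (f i) := by
  unfold av
  rw [Finset.sum_comm, Finset.sum_div]

lemma av_comm (f : T → S → ℝ) : av (fun t => av fun s => f t s) = av fun s => av fun t => f t s := by
  unfold av
  rw [← Finset.sum_div, ← Finset.sum_div, Finset.sum_comm, div_div, div_div, mul_comm]

lemma av_equiv (e : T ≃ S) (f : S → ℝ) : av (fun t => f (e t)) = av f := by
  unfold av
  rw [Equiv.sum_comp e f, Fintype.card_congr e]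

lemma av_prod (f : T × S → ℝ) : av f = av fun t => av fun s => f (t, s) := by
  unfold av
  rw [Fintype.sum_prod_type, Fintype.card_prod, ← Finset.sum_div, div_div]
  push_cast
  rw [mul_comm]

lemma exists_le_of_av [Nonempty T] {f : T → ℝ} {c : ℝ} (h : av f ≤ c) : ∃ t, f t ≤ c := by
  by_contra hcon
  push Not at hcon
  have hc : (0 : ℝ) < Fintype.card T := by exact_mod_cast Fintype.card_pos
  have h1 : ∑ _t : T, c < ∑ t, f t :=
    Finset.sum_lt_sum_of_nonempty Finset.univ_nonempty fun t _ => hcon t
  rw [Finset.sum_const, Finset.card_univ, nsmul_eq_mul] at h1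
  unfold av at h
  rw [div_le_iff₀ hc] at h
  linarith

lemma av_nonneg {f : T → ℝ} (h : ∀ t, 0 ≤ f t) : 0 ≤ av f := by
  unfold av
  exact div_nonneg (Finset.sum_nonneg fun t _ => h t) (Nat.cast_nonneg _)

lemma av_le [Nonempty T] {f : T → ℝ} {c : ℝ} (h : ∀ t, f t ≤ c) : av f ≤ c := by
  have := av_mono (f := f) (g := fun _ => c) h
  rwa [av_const] at this

/-- The average of a function of one coordinate over a power. -/
lemma av_coord {ι : Type*} [Fintype ι] [DecidableEq ι] [Nonempty T] (i : ι) (f : T → ℝ) :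
    av (fun ω : ι → T => f (ω i)) = av f := by
  have h1 := av_equiv (Equiv.funSplitAt i T) (fun p : T × ({j // j ≠ i} → T) => f p.1)
  have h2 : (fun ω : ι → T => f ((Equiv.funSplitAt i T) ω).1) = fun ω => f (ω i) := by
    funext ω
    simp [Equiv.funSplitAt]
  rw [h2] at h1
  rw [h1, av_prod]
  congr 1
  funext t
  exact av_const (f t)

end Av

section Hilbert

variable {H : Type u} [NormedAddCommGroup H] [InnerProductSpace ℝ H]

/-- Short diagonals. -/
lemma quad (a b c d : H) :
    ‖a - c‖ ^ 2 + ‖b - d‖ ^ 2 ≤ ‖a - b‖ ^ 2 + ‖b - c‖ ^ 2 + ‖c - d‖ ^ 2 + ‖d - a‖ ^ 2 := by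
  have h := sq_nonneg ‖a - b + c - d‖
  have e : ‖a - b‖ ^ 2 + ‖b - c‖ ^ 2 + ‖c - d‖ ^ 2 + ‖d - a‖ ^ 2
      - (‖a - c‖ ^ 2 + ‖b - d‖ ^ 2) = ‖a - b + c - d‖ ^ 2 := by
    simp only [← real_inner_self_eq_norm_sq, inner_sub_left, inner_sub_right, inner_add_left,
      inner_add_right]
    have h1 := real_inner_comm a b
    have h2 := real_inner_comm a c
    have h3 := real_inner_comm a d
    have h4 := real_inner_comm b c
    have h5 := real_inner_comm b d
    have h6 := real_inner_comm c d
    linarith
  linarith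

/-- Two independent coordinates. -/
lemma es_two {X Y : Type} [Fintype X] [Fintype Y] [Nonempty X] [Nonempty Y] (h : X → Y → H) :
    (av fun x => av fun x' => av fun y => av fun y' => ‖h x y - h x' y'‖ ^ 2) ≤
      (av fun x => av fun x' => av fun y => ‖h x y - h x' y‖ ^ 2) +
      (av fun x => av fun y => av fun y' => ‖h x y - h x y'‖ ^ 2) := by
  set L := av fun x => av fun x' => av fun y => av fun y' => ‖h x y - h x' y'‖ ^ 2 with hL
  set P := av fun x => av fun x' => av fun y => ‖h x y - h x' y‖ ^ 2 with hP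
  set Q := av fun x => av fun y => av fun y' => ‖h x y - h x y'‖ ^ 2 with hQ
  have key : (av fun x => av fun x' => av fun y => av fun y' =>
      (‖h x y - h x' y'‖ ^ 2 + ‖h x' y - h x y'‖ ^ 2)) ≤
      av fun x => av fun x' => av fun y => av fun y' =>
      (‖h x y - h x' y‖ ^ 2 + ‖h x' y - h x' y'‖ ^ 2 + ‖h x' y' - h x y'‖ ^ 2
        + ‖h x y' - h x y‖ ^ 2) :=
    av_mono fun x => av_mono fun x' => av_mono fun y => av_mono fun y' => quad _ _ _ _
  simp only [av_add] at key
  have e1 : (av fun x => av fun x' => av fun y => av fun y' => ‖h x' y - h x y'‖ ^ 2) = L := by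
    rw [hL, av_comm]
  have e2 : (av fun x => av fun x' => av fun y => av fun _y' : Y => ‖h x y - h x' y‖ ^ 2) = P := by
    rw [hP]
    simp only [av_const]
  have e3 : (av fun _x : X => av fun x' => av fun y => av fun y' => ‖h x' y - h x' y'‖ ^ 2) = Q := by
    rw [hQ, av_const]
  have e4 : (av fun x => av fun x' => av fun _y : Y => av fun y' => ‖h x' y' - h x y'‖ ^ 2)
      = P := by
    rw [hP]
    simp only [av_const]
    rw [av_comm]
  have e5 : (av fun x => av fun _x' : X => av fun y => av fun y' => ‖h x y' - h x y‖ ^ 2) = Q := by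
    rw [hQ]
    simp only [av_const]
    congr 1
    funext x
    rw [av_comm]
  rw [e1, e2, e3, e4, e5] at key
  linarith

/-- Efron–Stein on a power of a finite set. -/
lemma es {Ω : Type} [Fintype Ω] [Nonempty Ω] {r : ℝ} (hr : 0 ≤ r) : ∀ (b : ℕ) (h : (Fin b → Ω) → H),
    (∀ ω i t, ‖h ω - h (Function.update ω i t)‖ ≤ r) →
    (av fun ω => av fun ω' => ‖h ω - h ω'‖ ^ 2) ≤ b * r ^ 2
  | 0, h, _ => by
    have : (av fun ω => av fun ω' => ‖h ω - h ω'‖ ^ 2) = 0 := by
      have e : ∀ ω ω' : Fin 0 → Ω, ‖h ω - h ω'‖ ^ 2 = 0 := by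
        intro ω ω'
        rw [Subsingleton.elim ω ω', sub_self, norm_zero]
        norm_num
      simp only [e]
      rw [av_const, av_const]
    rw [this]
    simp
  | b + 1, h, hh => by
    set g : Ω → (Fin b → Ω) → H := fun x y => h (Fin.cons x y) with hg
    have e0 : ∀ F : (Fin (b + 1) → Ω) → ℝ, av F = av fun x => av fun y => F (Fin.cons x y) := by
      intro F
      have e := av_equiv (Fin.consEquiv fun _ : Fin (b + 1) => Ω) F
      rw [← e, av_prod]
      rfl
    have e1 : ∀ K : (Fin (b + 1) → Ω) → (Fin (b + 1) → Ω) → ℝ,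
        (av fun ω => av fun ω' => K ω ω') =
        av fun x => av fun x' => av fun y => av fun y' => K (Fin.cons x y) (Fin.cons x' y') := by
      intro K
      have s1 : (fun ω => av fun ω' => K ω ω') =
          fun ω => av fun x' => av fun y' => K ω (Fin.cons x' y') := funext fun ω => e0 _
      rw [s1, e0]
      congr 1
      funext x
      exact av_comm (fun y x' => av fun y' => K (Fin.cons x y) (Fin.cons x' y'))
    rw [e1 fun ω ω' => ‖h ω - h ω'‖ ^ 2]
    refine (es_two g).trans ?_
    have h1 : (av fun x => av fun x' => av fun y => ‖g x y - g x' y‖ ^ 2) ≤ r ^ 2 := by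
      refine av_le fun x => av_le fun x' => av_le fun y => ?_
      have := hh (Fin.cons x y) 0 x'
      rw [Fin.update_cons_zero] at this
      exact pow_le_pow_left₀ (norm_nonneg _) this 2
    have h2 : (av fun x => av fun y => av fun y' => ‖g x y - g x y'‖ ^ 2) ≤ b * r ^ 2 := by
      refine av_le fun x => ?_
      refine es hr b (g x) fun ω i t => ?_
      have := hh (Fin.cons x ω) i.succ t
      rw [← Fin.cons_update] at this
      exact this
    push_cast
    linarith

/-- The energy of a walk. -/
noncomputable def en {W T : Type} [Fintype W] [Fintype T] [AddCommGroup W] (a : W → H) (ζ : T → W) : ℝ :=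
  av fun p => av fun t => ‖a p - a (p + ζ t)‖ ^ 2

lemma av_shift {W : Type} [Fintype W] [AddCommGroup W] (c : W) (f : W → ℝ) :
    av (fun p => f (p + c)) = av f :=
  av_equiv (Equiv.addRight c) f

lemma en_double {W T : Type} [Fintype W] [Fintype T] [Nonempty T] [AddCommGroup W] (a : W → H)
    (ζ : T → W) (h2 : ∀ t, ζ t + ζ t = 0) :
    en a (fun t : T × T => ζ t.1 + ζ t.2) ≤ 2 * en a ζ := by
  unfold en
  have e0 : (av fun p => av fun t : T × T => ‖a p - a (p + (ζ t.1 + ζ t.2))‖ ^ 2) =
      av fun p => av fun t => av fun t' => ‖a p - a (p + (ζ t + ζ t'))‖ ^ 2 := by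
    congr 1
    funext p
    rw [av_prod]
  rw [e0]
  set E2 := av fun p => av fun t => av fun t' => ‖a p - a (p + (ζ t + ζ t'))‖ ^ 2 with hE2
  set E := av fun p => av fun t => ‖a p - a (p + ζ t)‖ ^ 2 with hE
  have key : (av fun p => av fun t => av fun t' => (‖a p - a (p + (ζ t + ζ t'))‖ ^ 2
      + ‖a (p + ζ t) - a (p + ζ t')‖ ^ 2)) ≤
      av fun p => av fun t => av fun t' => (‖a p - a (p + ζ t)‖ ^ 2
      + ‖a (p + ζ t) - a (p + (ζ t + ζ t'))‖ ^ 2
      + ‖a (p + (ζ t + ζ t')) - a (p + ζ t')‖ ^ 2 + ‖a (p + ζ t') - a p‖ ^ 2) :=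
    av_mono fun p => av_mono fun t => av_mono fun t' => quad _ _ _ _
  simp only [av_add] at key
  have e1 : (av fun p => av fun t => av fun t' => ‖a (p + ζ t) - a (p + ζ t')‖ ^ 2) = E2 := by
    rw [hE2, av_comm]
    rw [av_comm (fun p t => av fun t' => ‖a p - a (p + (ζ t + ζ t'))‖ ^ 2)]
    congr 1
    funext t
    rw [← av_shift (ζ t) (fun p => av fun t' => ‖a p - a (p + (ζ t + ζ t'))‖ ^ 2)]
    congr 1
    funext p
    congr 1
    funext t'
    congr 3
    rw [show p + ζ t + (ζ t + ζ t') = p + ζ t' + (ζ t + ζ t) by abel, h2, add_zero]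
  have e2 : (av fun p => av fun t => av fun _t' : T => ‖a p - a (p + ζ t)‖ ^ 2) = E := by
    simp only [av_const, hE]
  have e3 : (av fun p => av fun t => av fun t' => ‖a (p + ζ t) - a (p + (ζ t + ζ t'))‖ ^ 2)
      = E := by
    rw [av_comm]
    have : ∀ t, (av fun p => av fun t' => ‖a (p + ζ t) - a (p + (ζ t + ζ t'))‖ ^ 2) = E := by
      intro t
      rw [hE, ← av_shift (ζ t) (fun p => av fun t' => ‖a p - a (p + ζ t')‖ ^ 2)]
      simp only [add_assoc]
    simp only [this, av_const]
  have e4 : (av fun p => av fun t => av fun t' => ‖a (p + (ζ t + ζ t')) - a (p + ζ t')‖ ^ 2)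
      = E := by
    rw [← e3]
    congr 1
    funext p
    rw [av_comm]
    congr 1
    funext t
    congr 1
    funext t'
    rw [norm_sub_rev, add_comm (ζ t') (ζ t)]
  have e5 : (av fun p => av fun _t : T => av fun t' => ‖a (p + ζ t') - a p‖ ^ 2) = E := by
    simp only [av_const, hE]
    congr 1
    funext p
    congr 1
    funext t
    rw [norm_sub_rev]
  rw [e1, e2, e3, e4, e5] at key
  linarith

end Hilbert

end Pool.Agent.W532.Union2
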