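import Pool.Agent.W532.Union2.Avg

/-!
# The discrete cube: Hamming distance, nets, the noise and the walk
-/

set_option autoImplicit false
set_option linter.unusedSectionVars false
set_option linter.style.haveILetI false

namespace Pool.Agent.W532.Union2

open scoped BigOperators
open Finset

universe u

section Cube

variable {I : Type} [Fintype I] [DecidableEq I]

/-- The Hamming distance as a real number. -/
noncomputable def hd (x y : I → ZMod 2) : ℝ := (hammingDist x y : ℝ)

lemma hd_self (x : I → ZMod 2) : hd x x = 0 := by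
  unfold hd
  rw [hammingDist_self, Nat.cast_zero]

lemma hd_comm (x y : I → ZMod 2) : hd x y = hd y x := by
  unfold hd
  rw [hammingDist_comm]

lemma hd_tri (x y z : I → ZMod 2) : hd x z ≤ hd x y + hd y z := by
  unfold hd
  exact_mod_cast hammingDist_triangle x y z

lemma hd_nonneg (x y : I → ZMod 2) : 0 ≤ hd x y := Nat.cast_nonneg _

lemma eq_of_hd {x y : I → ZMod 2} (h : hd x y = 0) : x = y := by
  unfold hd at h
  exact hammingDist_eq_zero.1 (by exact_mod_cast h)

lemma one_le_hd {x y : I → ZMod 2} (h : x ≠ y) : 1 ≤ hd x y := by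
  unfold hd
  have : hammingDist x y ≠ 0 := hammingDist_ne_zero.2 h
  exact_mod_cast Nat.one_le_iff_ne_zero.2 this

/-- The sign of an element of `ZMod 2`. -/
noncomputable def sg (z : ZMod 2) : ℝ := if z = 0 then 1 else -1

lemma zmod_two (a : ZMod 2) : a = 0 ∨ a = 1 := by
  revert a
  decide

lemma one_add_one : (1 : ZMod 2) + 1 = 0 := by decide

lemma one_ne : (1 : ZMod 2) ≠ 0 := by decide

lemma sg_add (a b : ZMod 2) : sg (a + b) = sg a * sg b := by
  unfold sg
  rcases zmod_two a with rfl | rfl <;> rcases zmod_two b with rfl | rfl <;>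
    simp [one_add_one]

lemma hd_eq_sum (p z : I → ZMod 2) : hd p (p + z) = ∑ i, (1 - sg (z i)) / 2 := by
  unfold hd hammingDist
  rw [Finset.card_filter]
  push_cast
  refine Finset.sum_congr rfl fun i _ => ?_
  unfold sg
  by_cases h : z i = 0
  · simp [h]
  · have : p i ≠ (p + z) i := by
      intro hcon
      apply h
      simpa using hcon
    rw [if_pos this, if_neg h]
    norm_num

/-- The Euclidean embedding of the cube. -/
noncomputable def iota (x : I → ZMod 2) : EuclideanSpace ℝ I :=
  WithLp.toLp 2 fun i => if x i = 0 then 0 else 1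

lemma norm_iota (x y : I → ZMod 2) : ‖iota x - iota y‖ ^ 2 = hd x y := by
  rw [EuclideanSpace.real_norm_sq_eq]
  unfold hd hammingDist
  rw [Finset.card_filter]
  push_cast
  refine Finset.sum_congr rfl fun i _ => ?_
  have e : (iota x - iota y).ofLp i = (if x i = 0 then (0 : ℝ) else 1) - if y i = 0 then 0 else 1 :=
    rfl
  rw [e]
  have h2 : ∀ a b : ZMod 2, ((if a = 0 then (0 : ℝ) else 1) - if b = 0 then 0 else 1) ^ 2
      = if a ≠ b then 1 else 0 := by
    intro a b
    rcases zmod_two a with rfl | rfl <;> rcases zmod_two b with rfl | rfl <;> simp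
  exact h2 _ _

/-- Existence of nets. -/
lemma exists_net {δ : ℝ} (hδ : 0 < δ) : ∃ (N : Set (I → ZMod 2)) (R : (I → ZMod 2) → I → ZMod 2),
    (∀ x ∈ N, ∀ y ∈ N, x ≠ y → δ ≤ hd x y) ∧ (∀ w, R w ∈ N) ∧ ∀ w, hd w (R w) ≤ δ := by
  classical
  set P : Finset (I → ZMod 2) → Prop := fun s => ∀ x ∈ s, ∀ y ∈ s, x ≠ y → δ ≤ hd x y with hP
  obtain ⟨s, hs, hmax⟩ := Finset.exists_max_image (Finset.univ.filter P) Finset.card
    ⟨∅, by simp [hP]⟩
  rw [Finset.mem_filter] at hs
  have hcov : ∀ w, ∃ z ∈ s, hd w z ≤ δ := by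
    intro w
    by_contra hcon
    push Not at hcon
    have hws : w ∉ s := by
      intro hw
      have := hcon w hw
      rw [hd_self] at this
      linarith
    have hP' : P (insert w s) := by
      intro x hx y hy hxy
      rw [Finset.mem_insert] at hx hy
      rcases hx with rfl | hx
      · rcases hy with rfl | hy
        · exact absurd rfl hxy
        · exact (hcon y hy).le
      · rcases hy with rfl | hy
        · rw [hd_comm]
          exact (hcon x hx).le
        · exact hs.2 x hx y hy hxy
    have h1 := hmax (insert w s) (by simp [hP'])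
    rw [Finset.card_insert_of_notMem hws] at h1
    omega
  choose R hR using hcov
  exact ⟨(s : Set (I → ZMod 2)), R, fun x hx y hy => hs.2 x hx y hy, fun w => (hR w).1,
    fun w => (hR w).2⟩

/-- Walks of length `2 ^ k`. -/
lemma exists_walk {H : Type u} [NormedAddCommGroup H] [InnerProductSpace ℝ H]
    {T0 : Type} [Fintype T0] [Nonempty T0] (ζ0 : T0 → I → ZMod 2) : ∀ k : ℕ,
    ∃ (T : Type) (_ : Fintype T) (_ : Nonempty T) (ζ : T → I → ZMod 2),
      (∀ a : (I → ZMod 2) → H, en a ζ ≤ 2 ^ k * en a ζ0) ∧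
      ∀ i, av (fun t => sg (ζ t i)) = (av fun t => sg (ζ0 t i)) ^ 2 ^ k
  | 0 => ⟨T0, inferInstance, inferInstance, ζ0, fun a => by simp, fun i => by simp⟩
  | k + 1 => by
    obtain ⟨T, _, _, ζ, h1, h2⟩ := exists_walk (H := H) ζ0 k
    refine ⟨T × T, inferInstance, inferInstance, fun t => ζ t.1 + ζ t.2, fun a => ?_, fun i => ?_⟩
    · have h3 := en_double a ζ (fun t => by
        funext i
        have : ∀ z : ZMod 2, z + z = 0 := by decide
        exact this _)
      have h4 := h1 a
      rw [pow_succ]
      linarith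
    · rw [av_prod]
      have e : (fun t => av fun s => sg ((ζ (t, s).1 + ζ (t, s).2) i)) =
          fun t => sg (ζ t i) * av (fun s => sg (ζ s i)) := by
        funext t
        rw [← av_mul_left]
        congr 1
        funext s
        exact sg_add _ _
      rw [e, av_mul_right, h2, pow_succ, pow_mul]
      ring

end Cube

/-! ### The noise -/

section Noise

variable {b M : ℕ}

/-- In every block one coordinate is chosen, and it is flipped or not. -/
def noise (ω : Fin b → Fin M × Bool) : Fin b × Fin M → ZMod 2 :=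
  fun p => if (ω p.1).1 = p.2 ∧ (ω p.1).2 = true then 1 else 0

lemma hd_noise (p : Fin b × Fin M → ZMod 2) (ω : Fin b → Fin M × Bool) :
    hd p (p + noise ω) ≤ b := by
  classical
  unfold hd hammingDist
  have h1 : (Finset.univ.filter fun i => p i ≠ (p + noise ω) i) ⊆
      (Finset.univ : Finset (Fin b)).image fun g => (g, (ω g).1) := by
    intro i hi
    rw [Finset.mem_filter] at hi
    rw [Finset.mem_image]
    refine ⟨i.1, Finset.mem_univ _, ?_⟩
    by_contra hcon
    apply hi.2
    have : noise ω i = 0 := by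
      unfold noise
      rw [if_neg]
      rintro ⟨h, -⟩
      exact hcon (Prod.ext rfl h)
    simp [this]
  have h2 := (Finset.card_le_card h1).trans Finset.card_image_le
  rw [Finset.card_univ, Fintype.card_fin] at h2
  exact_mod_cast h2

lemma hd_noise_update (p : Fin b × Fin M → ZMod 2) (ω : Fin b → Fin M × Bool) (g : Fin b)
    (t : Fin M × Bool) : hd (p + noise ω) (p + noise (Function.update ω g t)) ≤ 2 := by
  classical
  unfold hd hammingDist
  have h1 : (Finset.univ.filter fun i => (p + noise ω) i ≠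
      (p + noise (Function.update ω g t)) i) ⊆ {(g, (ω g).1), (g, t.1)} := by
    intro i hi
    rw [Finset.mem_filter] at hi
    rw [Finset.mem_insert, Finset.mem_singleton]
    by_contra hcon
    push Not at hcon
    apply hi.2
    have : noise ω i = noise (Function.update ω g t) i := by
      unfold noise
      by_cases hg : i.1 = g
      · have h3 : (ω i.1).1 ≠ i.2 := by
          intro h
          apply hcon.1
          rw [← hg]
          exact Prod.ext rfl h.symm
        have h4 : (Function.update ω g t i.1).1 ≠ i.2 := by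
          rw [hg, Function.update_self]
          intro h
          apply hcon.2
          exact Prod.ext hg h.symm
        rw [if_neg (fun h => h3 h.1), if_neg (fun h => h4 h.1)]
      · rw [Function.update_of_ne hg]
    simp [this]
  have h2 := (Finset.card_le_card h1).trans Finset.card_le_two
  exact_mod_cast h2

lemma av_sg_noise (hM : 0 < M) (i : Fin b × Fin M) :
    av (fun ω : Fin b → Fin M × Bool => sg (noise ω i)) = 1 - 1 / M := by
  haveI : Nonempty (Fin M × Bool) := ⟨(⟨0, hM⟩, true)⟩
  have hM' : (0 : ℝ) < M := by exact_mod_cast hM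
  have e : (fun ω : Fin b → Fin M × Bool => sg (noise ω i)) =
      fun ω => (fun c : Fin M × Bool => if c.1 = i.2 ∧ c.2 = true then (-1 : ℝ) else 1) (ω i.1) := by
    funext ω
    unfold sg noise
    by_cases h : (ω i.1).1 = i.2 ∧ (ω i.1).2 = true
    · simp [h]
    · simp [h]
  rw [e]
  refine (av_coord i.1 (fun c : Fin M × Bool =>
    if c.1 = i.2 ∧ c.2 = true then (-1 : ℝ) else 1)).trans ?_
  unfold av
  have h1 : ∀ c : Fin M × Bool, (if c.1 = i.2 ∧ c.2 = true then (-1 : ℝ) else 1) =
      1 - 2 * (if c = (i.2, true) then 1 else 0) := by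
    intro c
    by_cases h : c.1 = i.2 ∧ c.2 = true
    · rw [if_pos h, if_pos (Prod.ext h.1 h.2)]
      norm_num
    · rw [if_neg h, if_neg]
      · norm_num
      · intro hc
        exact h ⟨by rw [hc], by rw [hc]⟩
  simp only [h1]
  rw [Finset.sum_sub_distrib, ← Finset.mul_sum, Finset.sum_ite_eq' Finset.univ (i.2, true)]
  simp
  field_simp

/-- The noise composed with itself. -/
def noise2 (t : (Fin b → Fin M × Bool) × (Fin b → Fin M × Bool)) : Fin b × Fin M → ZMod 2 :=
  noise t.1 + noise t.2

lemma av_sg_noise2 (hM : 0 < M) (i : Fin b × Fin M) :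
    av (fun t => sg (noise2 (b := b) (M := M) t i)) = (1 - 1 / M) ^ 2 := by
  rw [av_prod]
  have e : (fun t => av fun s => sg (noise2 (b := b) (M := M) (t, s) i)) =
      fun t => sg (noise t i) * av (fun s : Fin b → Fin M × Bool => sg (noise s i)) := by
    funext t
    rw [← av_mul_left]
    congr 1
    funext s
    exact sg_add _ _
  rw [e, av_mul_right, av_sg_noise hM]
  ring

/-- The walk: energy and displacement. -/
lemma walk_noise {H : Type u} [NormedAddCommGroup H] [InnerProductSpace ℝ H] (b k : ℕ) :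
    ∃ (T : Type) (_ : Fintype T) (_ : Nonempty T)
      (ζ : T → Fin b × Fin (2 ^ (k + 1)) → ZMod 2),
      (∀ a : (Fin b × Fin (2 ^ (k + 1)) → ZMod 2) → H, en a ζ ≤ 2 ^ k * en a noise2) ∧
      ∀ p, (b : ℝ) * 2 ^ (k + 1) / 4 ≤ av fun t => hd p (p + ζ t) := by
  have hM : 0 < 2 ^ (k + 1) := by positivity
  haveI : Nonempty (Fin (2 ^ (k + 1)) × Bool) := ⟨(⟨0, hM⟩, true)⟩
  obtain ⟨T, i1, i2, ζ, h1, h2⟩ := exists_walk (H := H) (noise2 (b := b) (M := 2 ^ (k + 1))) k
  refine ⟨T, i1, i2, ζ, h1, fun p => ?_⟩
  have e : (fun t => hd p (p + ζ t)) = fun t => ∑ i, (1 - sg (ζ t i)) / 2 := by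
    funext t
    exact hd_eq_sum _ _
  rw [e, av_sum]
  have h3 : ∀ i, (1 : ℝ) / 4 ≤ av fun t => (1 - sg (ζ t i)) / 2 := by
    intro i
    have e2 : (fun t => (1 - sg (ζ t i)) / 2) = fun t => (1 / 2 : ℝ) * (1 - sg (ζ t i)) := by
      funext t
      ring
    rw [e2, av_mul_left, av_sub, av_const, h2, av_sg_noise2 hM, ← pow_mul]
    have h4 : (1 - 1 / ((2 ^ (k + 1) : ℕ) : ℝ)) ^ (2 * 2 ^ k) ≤ 1 / 2 := by
      have h5 := Real.one_sub_div_pow_le_exp_neg (n := 2 ^ (k + 1)) (t := 1)
        (by exact_mod_cast Nat.one_le_two_pow)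
      have h6 : Real.exp (-1) ≤ 1 / 2 := by
        rw [Real.exp_neg, one_div]
        refine inv_anti₀ (by norm_num) ?_
        have := Real.add_one_le_exp (1 : ℝ)
        linarith
      rw [show 2 * 2 ^ k = 2 ^ (k + 1) by ring]
      exact h5.trans h6
    linarith
  calc (b : ℝ) * 2 ^ (k + 1) / 4 = ∑ _i : Fin b × Fin (2 ^ (k + 1)), (1 : ℝ) / 4 := by
        rw [Finset.sum_const, Finset.card_univ, Fintype.card_prod, Fintype.card_fin,
          Fintype.card_fin, nsmul_eq_mul]
        push_cast
        ring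
    _ ≤ _ := Finset.sum_le_sum fun i _ => h3 i

end Noise

end Pool.Agent.W532.Union2
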