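import Pool.Agent.W532.Union2.Space

/-!
# The energy estimate
-/

set_option autoImplicit false
set_option linter.unusedSectionVars false
set_option linter.style.haveILetI false

namespace Pool.Agent.W532.Union2

open scoped BigOperators
open Finset

universe u

variable {H : Type u} [NormedAddCommGroup H] [InnerProductSpace ℝ H]

lemma sq_le_two (a b c : H) : ‖a - c‖ ^ 2 ≤ 2 * ‖a - b‖ ^ 2 + 2 * ‖b - c‖ ^ 2 := by
  have h1 := norm_sub_le_norm_sub_add_norm_sub a b c
  have h2 := norm_nonneg (a - c)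
  have h3 := norm_nonneg (a - b)
  have h4 := norm_nonneg (b - c)
  nlinarith [sq_nonneg (‖a - b‖ - ‖b - c‖)]

variable {b M : ℕ}

/-- One move: the first member is fixed at a net point `z`. -/
lemma move {R : (Fin b × Fin M → ZMod 2) → Fin b × Fin M → ZMod 2}
    {δ η Λ : ℝ} (hM : 0 < M) (hR : ∀ w, hd w (R w) ≤ δ) (hη : b + 2 * δ ≤ η) (hδ : 0 ≤ δ)
    (hΛ : 0 ≤ Λ) {β : ℝ → ℝ} (hβ : IsMT β) (hβ2 : β 2 ≤ 3) (hβδ : β δ ≤ 2 * √b)
    (F : (Fin b × Fin M → ZMod 2) → H) (u : Fin b × Fin M → ZMod 2)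
    (hF : ∀ y y', hd (R u) y ≤ η → hd (R u) y' ≤ η → ‖F y - F y'‖ ≤ Λ * β (hd y y')) :
    (av fun ω => av fun ω' => ‖F (R (u + noise ω)) - F (R (u + noise ω'))‖ ^ 2) ≤
      50 * b * Λ ^ 2 := by
  haveI : Nonempty (Fin M × Bool) := ⟨(⟨0, hM⟩, true)⟩
  have hb : (0 : ℝ) ≤ b := Nat.cast_nonneg b
  have hsb := Real.sq_sqrt hb
  have c1 : ∀ ω : Fin b → Fin M × Bool, hd (R u) (u + noise ω) ≤ b + δ := by
    intro ω
    have h1 := hd_tri (R u) u (u + noise ω)
    have h2 := hR u
    have h3 := hd_noise u ω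
    rw [hd_comm] at h2
    linarith
  have c2 : ∀ ω : Fin b → Fin M × Bool, hd (R u) (R (u + noise ω)) ≤ b + 2 * δ := by
    intro ω
    have h1 := hd_tri (R u) (u + noise ω) (R (u + noise ω))
    have h2 := hR (u + noise ω)
    have h3 := c1 ω
    linarith
  have e1 : ∀ ω : Fin b → Fin M × Bool,
      ‖F (R (u + noise ω)) - F (u + noise ω)‖ ≤ Λ * (2 * √b) := by
    intro ω
    refine (hF _ _ ((c2 ω).trans hη) ((c1 ω).trans (by linarith))).trans ?_
    refine mul_le_mul_of_nonneg_left ?_ hΛ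
    rw [hd_comm]
    exact (hβ.mono _ _ (hR _)).trans hβδ
  have e2 : ∀ ω ω' : Fin b → Fin M × Bool,
      ‖F (R (u + noise ω)) - F (R (u + noise ω'))‖ ^ 2 ≤
        2 * ‖F (u + noise ω) - F (u + noise ω')‖ ^ 2 + 32 * Λ ^ 2 * b := by
    intro ω ω'
    have h1 := e1 ω
    have h2 := e1 ω'
    rw [norm_sub_rev] at h2
    have h3 : ‖F (R (u + noise ω)) - F (R (u + noise ω'))‖ ≤
        ‖F (u + noise ω) - F (u + noise ω')‖ + Λ * (4 * √b) := by
      have h4 := norm_sub_le_norm_sub_add_norm_sub (F (R (u + noise ω))) (F (u + noise ω))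
        (F (R (u + noise ω')))
      have h5 := norm_sub_le_norm_sub_add_norm_sub (F (u + noise ω)) (F (u + noise ω'))
        (F (R (u + noise ω')))
      linarith
    have h6 := norm_nonneg (F (R (u + noise ω)) - F (R (u + noise ω')))
    have h7 := pow_le_pow_left₀ h6 h3 2
    refine h7.trans ?_
    have h8 : (Λ * (4 * √b)) ^ 2 = 16 * Λ ^ 2 * b := by
      rw [mul_pow, mul_pow, hsb]
      ring
    nlinarith [sq_nonneg (‖F (u + noise ω) - F (u + noise ω')‖ - Λ * (4 * √b))]
  have e3 : (av fun ω : Fin b → Fin M × Bool => av fun ω' : Fin b → Fin M × Bool =>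
      ‖F (u + noise ω) - F (u + noise ω')‖ ^ 2) ≤ b * (3 * Λ) ^ 2 := by
    refine es (r := 3 * Λ) (by linarith) b (fun ω => F (u + noise ω)) fun ω i t => ?_
    refine (hF _ _ ((c1 _).trans (by linarith)) ((c1 _).trans (by linarith))).trans ?_
    have h1 := (hβ.mono _ _ (hd_noise_update u ω i t)).trans hβ2
    nlinarith
  calc (av fun ω => av fun ω' => ‖F (R (u + noise ω)) - F (R (u + noise ω'))‖ ^ 2)
      ≤ av fun ω : Fin b → Fin M × Bool => av fun ω' : Fin b → Fin M × Bool =>
        (2 * ‖F (u + noise ω) - F (u + noise ω')‖ ^ 2 + 32 * Λ ^ 2 * b) :=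
        av_mono fun ω => av_mono fun ω' => e2 ω ω'
    _ = 2 * (av fun ω : Fin b → Fin M × Bool => av fun ω' : Fin b → Fin M × Bool =>
        ‖F (u + noise ω) - F (u + noise ω')‖ ^ 2) + 32 * Λ ^ 2 * b := by
        simp only [av_add, av_mul_left, av_const]
    _ ≤ 50 * b * Λ ^ 2 := by nlinarith

lemma noise_add_self (ω : Fin b → Fin M × Bool) : noise ω + noise ω = 0 := by
  funext i
  have : ∀ z : ZMod 2, z + z = 0 := by decide
  exact this _

/-- From a function on pairs to functions on points. -/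
lemma choose_functions (hM : 0 < M)
    (g : (Fin b × Fin M → ZMod 2) → (Fin b × Fin M → ZMod 2) → H) {C : ℝ}
    (hA : ∀ u, (av fun ω => av fun ω' => ‖g u (u + noise ω) - g u (u + noise ω')‖ ^ 2) ≤ C)
    (hB : ∀ v, (av fun ω => av fun ω' => ‖g (v + noise ω) v - g (v + noise ω') v‖ ^ 2) ≤ C) :
    ∃ ω₀ : Fin b → Fin M × Bool, en (fun p => g p (p + noise ω₀)) noise2 ≤ 16 * C := by
  haveI : Nonempty (Fin M × Bool) := ⟨(⟨0, hM⟩, true)⟩
  obtain ⟨ω₀, h₀⟩ : ∃ ω₀ : Fin b → Fin M × Bool,
      (av fun u => av fun ω => ‖g u (u + noise ω) - g u (u + noise ω₀)‖ ^ 2) ≤ C := by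
    refine exists_le_of_av ?_
    rw [av_comm]
    refine av_le fun u => ?_
    rw [av_comm]
    exact hA u
  obtain ⟨ω₁, h₁⟩ : ∃ ω₁ : Fin b → Fin M × Bool,
      (av fun v => av fun ω => ‖g (v + noise ω) v - g (v + noise ω₁) v‖ ^ 2) ≤ C := by
    refine exists_le_of_av ?_
    rw [av_comm]
    refine av_le fun v => ?_
    rw [av_comm]
    exact hB v
  refine ⟨ω₀, ?_⟩
  set a : (Fin b × Fin M → ZMod 2) → H := fun p => g p (p + noise ω₀) with ha
  set c : (Fin b × Fin M → ZMod 2) → H := fun q => g (q + noise ω₁) q with hc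
  -- one step
  have s1 : (av fun p => av fun ω : Fin b → Fin M × Bool => ‖a p - c (p + noise ω)‖ ^ 2)
      ≤ 4 * C := by
    have t1 : (av fun p => av fun ω : Fin b → Fin M × Bool => ‖a p - c (p + noise ω)‖ ^ 2) ≤
        av fun p => av fun ω : Fin b → Fin M × Bool =>
          (2 * ‖g p (p + noise ω) - g p (p + noise ω₀)‖ ^ 2 +
          2 * ‖g p (p + noise ω) - c (p + noise ω)‖ ^ 2) := by
      refine av_mono fun p => av_mono fun ω => ?_
      have := sq_le_two (a p) (g p (p + noise ω)) (c (p + noise ω))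
      rwa [norm_sub_rev (a p) (g p (p + noise ω))] at this
    have t2 : (av fun p => av fun ω : Fin b → Fin M × Bool =>
        ‖g p (p + noise ω) - c (p + noise ω)‖ ^ 2) ≤ C := by
      refine le_trans (le_of_eq ?_) h₁
      rw [av_comm, av_comm (fun v ω => ‖g (v + noise ω) v - g (v + noise ω₁) v‖ ^ 2)]
      congr 1
      funext ω
      rw [← av_shift (noise ω) fun v => ‖g (v + noise ω) v - g (v + noise ω₁) v‖ ^ 2]
      congr 1
      funext p
      rw [add_assoc p (noise ω) (noise ω), noise_add_self, add_zero]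
    simp only [av_add, av_mul_left] at t1
    linarith
  -- two steps
  have s2 : en a noise2 ≤ av fun p => av fun ω : Fin b → Fin M × Bool =>
      av fun ω' : Fin b → Fin M × Bool => (2 * ‖a p - c (p + noise ω)‖ ^ 2 +
        2 * ‖a (p + noise ω + noise ω') - c (p + noise ω)‖ ^ 2) := by
    unfold en
    refine av_mono fun p => ?_
    rw [av_prod]
    refine av_mono fun ω => av_mono fun ω' => ?_
    have := sq_le_two (a p) (c (p + noise ω)) (a (p + noise2 (ω, ω')))
    unfold noise2 at this ⊢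
    rw [← add_assoc] at this ⊢
    rwa [norm_sub_rev (c (p + noise ω))] at this
  have s3 : (av fun p => av fun ω : Fin b → Fin M × Bool =>
      av fun ω' : Fin b → Fin M × Bool => ‖a (p + noise ω + noise ω') - c (p + noise ω)‖ ^ 2)
      = av fun p => av fun ω : Fin b → Fin M × Bool => ‖a p - c (p + noise ω)‖ ^ 2 := by
    rw [av_comm]
    have : ∀ ω : Fin b → Fin M × Bool, (av fun p => av fun ω' : Fin b → Fin M × Bool =>
        ‖a (p + noise ω + noise ω') - c (p + noise ω)‖ ^ 2) =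
        av fun p => av fun ω : Fin b → Fin M × Bool => ‖a p - c (p + noise ω)‖ ^ 2 := by
      intro ω
      rw [av_comm, av_comm (fun p ω => ‖a p - c (p + noise ω)‖ ^ 2)]
      congr 1
      funext ω'
      rw [← av_shift (noise ω + noise ω') fun p => ‖a p - c (p + noise ω')‖ ^ 2]
      congr 1
      funext p
      rw [show p + (noise ω + noise ω') + noise ω' = p + noise ω + (noise ω' + noise ω') by abel,
        noise_add_self, add_zero, add_assoc]
    simp only [this, av_const]
  simp only [av_add, av_mul_left, av_const] at s2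
  rw [s3] at s2
  linarith

end Pool.Agent.W532.Union2
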