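import Pool.Agent.W532.Union2.Energy

/-!
# The configuration
-/

set_option autoImplicit false
set_option linter.unusedSectionVars false
set_option linter.style.haveILetI false

namespace Pool.Agent.W532.Union2

open scoped BigOperators
open Finset

universe u

lemma hd_zero_one {I : Type} [Fintype I] [DecidableEq I] :
    hd (0 : I → ZMod 2) 1 = Fintype.card I := by
  unfold hd hammingDist
  rw [Finset.filter_true_of_mem, Finset.card_univ]
  intro i _
  simp

/-- The lower bound for the space of pairs. -/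
lemma lower_pairs {K L δ η : ℝ} (hK : 1 ≤ K) (hL : 1 ≤ L) {b k : ℕ} (hKδ : K ^ 2 ≤ δ)
    (hLδ : L ^ 2 ≤ δ) (hbδ : δ ^ 2 ≤ b) (hη : η = b + 2 * δ) (hk : 112 * K ^ 2 ≤ 2 ^ (k + 1))
    {N : Set (Fin b × Fin (2 ^ (k + 1)) → ZMod 2)}
    {R : (Fin b × Fin (2 ^ (k + 1)) → ZMod 2) → Fin b × Fin (2 ^ (k + 1)) → ZMod 2}
    (hRN : ∀ w, R w ∈ N) (hR : ∀ w, hd w (R w) ≤ δ)
    {H : Type u} [NormedAddCommGroup H] [InnerProductSpace ℝ H]
    (f : Sp (Fin b × Fin (2 ^ (k + 1))) N η → H) {s D : ℝ} (hs : 0 < s)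
    (hf : ∀ p q, s * (phi L K η (hd p.x q.x) + phi K L η (hd p.y q.y)) ≤ ‖f p - f q‖ ∧
      ‖f p - f q‖ ≤ s * D * (phi L K η (hd p.x q.x) + phi K L η (hd p.y q.y))) :
    K * L ≤ 60 * D := by
  classical
  have hδ1 : 1 ≤ δ := by nlinarith
  have hb1 : (1 : ℝ) ≤ b := by nlinarith
  have hδb : δ ≤ b := by nlinarith
  have hη3 : η ≤ 3 * b := by rw [hη]; linarith
  have hKη : K ^ 2 ≤ η := by rw [hη]; linarith
  have hLη : L ^ 2 ≤ η := by rw [hη]; linarith
  have hM : 0 < 2 ^ (k + 1) := by positivity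
  have hMr : (0 : ℝ) < 2 ^ (k + 1) := by positivity
  set α : ℝ → ℝ := phi L K η with hα
  set β : ℝ → ℝ := phi K L η with hβ
  have mα : IsMT α := phi_isMT hL hK hLη
  have mβ : IsMT β := phi_isMT hK hL hKη
  have hsb : ∀ K' : ℝ, 1 ≤ K' → K' ^ 2 ≤ δ → 2 * K' * √δ ≤ 2 * √b := by
    intro K' h1 h2
    have : K' * √δ ≤ √b := by
      refine Real.le_sqrt_of_sq_le ?_
      rw [mul_pow, Real.sq_sqrt (by linarith)]
      nlinarith
    linarith
  have hβδ : β δ ≤ 2 * √b :=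
    (phi_le_small hK hL hKη (by linarith) (by rw [hη]; linarith)).trans (hsb K hK hKδ)
  have hαδ : α δ ≤ 2 * √b :=
    (phi_le_small hL hK hLη (by linarith) (by rw [hη]; linarith)).trans (hsb L hL hLδ)
  -- the extended function
  set V : (Fin b × Fin (2 ^ (k + 1)) → ZMod 2) → (Fin b × Fin (2 ^ (k + 1)) → ZMod 2) → Prop :=
    fun x y => (x ∈ N ∨ y ∈ N) ∧ hd x y ≤ η with hV
  set F : (Fin b × Fin (2 ^ (k + 1)) → ZMod 2) → (Fin b × Fin (2 ^ (k + 1)) → ZMod 2) → H :=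
    fun x y => if h : V x y then f ⟨x, y, h.1, h.2⟩ else 0 with hF
  have hFV : ∀ x y (h : V x y), F x y = f ⟨x, y, h.1, h.2⟩ := by
    intro x y h
    simp only [hF, dif_pos h]
  -- `D ≥ 1`
  have hVR : ∀ u v, hd u v ≤ b → V (R u) (R v) := by
    intro u v huv
    refine ⟨Or.inl (hRN u), ?_⟩
    have h1 := hd_tri (R u) u (R v)
    have h2 := hd_tri u v (R v)
    have h3 := hR u
    have h4 := hR v
    rw [hd_comm] at h3
    rw [hη]
    linarith
  have hD : 0 ≤ D := by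
    have v0 := hVR 0 0 (by rw [hd_self]; linarith)
    have v1 := hVR 1 1 (by rw [hd_self]; linarith)
    have h1 := hf ⟨R 0, R 0, v0.1, v0.2⟩ ⟨R 1, R 1, v1.1, v1.2⟩
    simp only at h1
    have h2 : 1 ≤ hd (R 0) (R 1) := by
      have h3 := hd_tri (0 : Fin b × Fin (2 ^ (k + 1)) → ZMod 2) (R 0) 1
      have h4 := hd_tri (R 0) (R 1) 1
      have h5 := hR 0
      have h6 := hR 1
      rw [hd_comm] at h6
      rw [hd_zero_one, Fintype.card_prod, Fintype.card_fin, Fintype.card_fin] at h3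
      push_cast at h3
      have h7 : (112 : ℝ) ≤ 2 ^ (k + 1) := by nlinarith
      have h8 : (b : ℝ) * 112 ≤ b * 2 ^ (k + 1) := mul_le_mul_of_nonneg_left h7 (by linarith)
      linarith
    have h3 : 0 < α (hd (R 0) (R 1)) := mα.pos _ h2
    have h4 : 0 < β (hd (R 0) (R 1)) := mβ.pos _ h2
    have h5 := h1.1.trans h1.2
    by_contra hneg
    push Not at hneg
    have h6 : s * D * (α (hd (R 0) (R 1)) + β (hd (R 0) (R 1))) < 0 :=
      mul_neg_of_neg_of_pos (mul_neg_of_pos_of_neg hs hneg) (by linarith)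
    have h7 : 0 < s * (α (hd (R 0) (R 1)) + β (hd (R 0) (R 1))) := by positivity
    linarith
  have hΛ : 0 ≤ s * D := mul_nonneg hs.le hD
  -- energies
  set g : (Fin b × Fin (2 ^ (k + 1)) → ZMod 2) → (Fin b × Fin (2 ^ (k + 1)) → ZMod 2) → H :=
    fun u v => F (R u) (R v) with hg
  have hA : ∀ u, (av fun ω => av fun ω' => ‖g u (u + noise ω) - g u (u + noise ω')‖ ^ 2) ≤
      50 * b * (s * D) ^ 2 := by
    intro u
    refine move (δ := δ) (η := η) hM hR (by rw [hη]) (by linarith) hΛ mβ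
      (phi_two hK hL hKη) hβδ (F (R u)) u ?_
    intro y y' hy hy'
    have v1 : V (R u) y := ⟨Or.inl (hRN u), hy⟩
    have v2 : V (R u) y' := ⟨Or.inl (hRN u), hy'⟩
    rw [hFV _ _ v1, hFV _ _ v2]
    have h1 := (hf ⟨R u, y, v1.1, v1.2⟩ ⟨R u, y', v2.1, v2.2⟩).2
    simp only at h1
    rwa [hd_self, mα.zero, zero_add] at h1
  have hB : ∀ v, (av fun ω => av fun ω' => ‖g (v + noise ω) v - g (v + noise ω') v‖ ^ 2) ≤
      50 * b * (s * D) ^ 2 := by
    intro v
    refine move (δ := δ) (η := η) hM hR (by rw [hη]) (by linarith) hΛ mα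
      (phi_two hL hK hLη) hαδ (fun x => F x (R v)) v ?_
    intro y y' hy hy'
    have v1 : V y (R v) := ⟨Or.inr (hRN v), by rwa [hd_comm]⟩
    have v2 : V y' (R v) := ⟨Or.inr (hRN v), by rwa [hd_comm]⟩
    show ‖F y (R v) - F y' (R v)‖ ≤ _
    rw [hFV _ _ v1, hFV _ _ v2]
    have h1 := (hf ⟨y, R v, v1.1, v1.2⟩ ⟨y', R v, v2.1, v2.2⟩).2
    simp only at h1
    rwa [hd_self, mβ.zero, add_zero] at h1
  obtain ⟨ω₀, hω⟩ := choose_functions hM g hA hB
  obtain ⟨T, _, _, ζ, hζ, hdisp⟩ := walk_noise (H := H) b k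
  have hup := (hζ (fun p => g p (p + noise ω₀))).trans
    (mul_le_mul_of_nonneg_left hω (by positivity))
  -- the lower bound
  have hpt : ∀ p q : Fin b × Fin (2 ^ (k + 1)) → ZMod 2,
      s ^ 2 * (K * L) ^ 2 * (hd p q - (2 * δ + 4 * η * K ^ 2)) ≤
      ‖g p (p + noise ω₀) - g q (q + noise ω₀)‖ ^ 2 := by
    intro p q
    have v1 := hVR p (p + noise ω₀) (hd_noise _ _)
    have v2 := hVR q (q + noise ω₀) (hd_noise _ _)
    have h1 := (hf ⟨_, _, v1.1, v1.2⟩ ⟨_, _, v2.1, v2.2⟩).1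
    rw [← hFV _ _ v1, ← hFV _ _ v2] at h1
    simp only at h1
    have h2 : hd p q - 2 * δ ≤ hd (R p) (R q) := by
      have h3 := hd_tri p (R p) q
      have h4 := hd_tri (R p) (R q) q
      have h5 := hR p
      have h6 := hR q
      rw [hd_comm] at h6
      linarith
    set w := hd (R p) (R q) with hw
    have hw0 : 0 ≤ w := hd_nonneg _ _
    have hβ0 := mβ.nonneg (hd_nonneg (R (p + noise ω₀)) (R (q + noise ω₀)))
    rcases le_total (4 * η * K ^ 2) w with h | h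
    · have h7 : L * K * √w ≤ α w := le_phi_large hL hK hLη h
      have h8 : s * (L * K * √w) ≤ ‖g p (p + noise ω₀) - g q (q + noise ω₀)‖ :=
        (mul_le_mul_of_nonneg_left (by linarith) hs.le).trans h1
      have h9 : 0 ≤ s * (L * K * √w) := by positivity
      have h10 := pow_le_pow_left₀ h9 h8 2
      refine le_trans ?_ h10
      have h11 : (s * (L * K * √w)) ^ 2 = s ^ 2 * (K * L) ^ 2 * √w ^ 2 := by ring
      rw [h11, Real.sq_sqrt hw0]
      refine mul_le_mul_of_nonneg_left ?_ (by positivity)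
      have h12 : 0 ≤ 4 * η * K ^ 2 := by
        have : 0 ≤ η := by linarith [sq_nonneg K]
        positivity
      linarith
    · have h7 : hd p q - (2 * δ + 4 * η * K ^ 2) ≤ 0 := by linarith
      have h8 : 0 ≤ s ^ 2 * (K * L) ^ 2 := by positivity
      have h9 := mul_nonpos_of_nonneg_of_nonpos h8 h7
      exact h9.trans (sq_nonneg _)
  have hlow : s ^ 2 * (K * L) ^ 2 * (b * 2 ^ (k + 1) / 4 - (2 * δ + 4 * η * K ^ 2)) ≤
      en (fun p => g p (p + noise ω₀)) ζ := by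
    unfold en
    have h1 : (av fun p => av fun t => s ^ 2 * (K * L) ^ 2 *
        (hd p (p + ζ t) - (2 * δ + 4 * η * K ^ 2))) ≤
        av fun p => av fun t => ‖g p (p + noise ω₀) - g (p + ζ t) (p + ζ t + noise ω₀)‖ ^ 2 :=
      av_mono fun p => av_mono fun t => hpt p (p + ζ t)
    refine le_trans ?_ h1
    have h2 : ∀ p : Fin b × Fin (2 ^ (k + 1)) → ZMod 2, s ^ 2 * (K * L) ^ 2 *
        (b * 2 ^ (k + 1) / 4 - (2 * δ + 4 * η * K ^ 2)) ≤
        av fun t => s ^ 2 * (K * L) ^ 2 * (hd p (p + ζ t) - (2 * δ + 4 * η * K ^ 2)) := by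
      intro p
      rw [av_mul_left, av_sub, av_const]
      refine mul_le_mul_of_nonneg_left ?_ (by positivity)
      have := hdisp p
      linarith
    have h3 := av_mono h2
    rwa [av_const] at h3
  have hfin := hlow.trans hup
  have h1 : 2 * δ + 4 * η * K ^ 2 ≤ b * 2 ^ (k + 1) / 8 := by
    have h2 : 4 * η * K ^ 2 ≤ 12 * b * K ^ 2 :=
      mul_le_mul_of_nonneg_right (by linarith) (sq_nonneg K)
    have h3 : (b : ℝ) * 1 ≤ b * K ^ 2 := mul_le_mul_of_nonneg_left (by nlinarith) (by linarith)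
    have h4 : (b : ℝ) * (112 * K ^ 2) ≤ b * 2 ^ (k + 1) :=
      mul_le_mul_of_nonneg_left hk (by linarith)
    linarith
  have h2 : s ^ 2 * (K * L) ^ 2 * (b * 2 ^ (k + 1) / 8) ≤
      s ^ 2 * (K * L) ^ 2 * (b * 2 ^ (k + 1) / 4 - (2 * δ + 4 * η * K ^ 2)) := by
    refine mul_le_mul_of_nonneg_left ?_ (by positivity)
    linarith
  have h3 := h2.trans hfin
  have h4 : (2 : ℝ) ^ (k + 1) = 2 * 2 ^ k := by ring
  rw [h4] at h3
  set P : ℝ := s ^ 2 * b * 2 ^ k with hP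
  have hP0 : 0 < P := by positivity
  have h5 : P * (K * L) ^ 2 ≤ P * (3200 * D ^ 2) := by
    have e1 : P * (K * L) ^ 2 = 4 * (s ^ 2 * (K * L) ^ 2 * (b * (2 * 2 ^ k) / 8)) := by
      rw [hP]
      ring
    have e2 : P * (3200 * D ^ 2) = 4 * (2 ^ k * (16 * (50 * b * (s * D) ^ 2))) := by
      rw [hP]
      ring
    rw [e1, e2]
    linarith
  have h6 : (K * L) ^ 2 ≤ 3200 * D ^ 2 := le_of_mul_le_mul_left h5 hP0
  refine le_of_sq_le_sq ?_ (by positivity)
  nlinarith [sq_nonneg D]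

/-- For `K, L ≥ 1` there is a finite metric space which is a union of a set of Euclidean
distortion at most `5 K` and a set of Euclidean distortion at most `5 L` such that every map into
an inner product space has distortion at least `K L / 60`. -/
theorem config (K L : ℝ) (hK : 1 ≤ K) (hL : 1 ≤ L) :
    ∃ (X : Type) (_ : MetricSpace X) (_ : Finite X) (A B : Set X), A ∪ B = Set.univ ∧
      (∃ (n : ℕ) (f : X → EuclideanSpace ℝ (Fin n)), ∀ x ∈ A, ∀ y ∈ A,
        dist x y ≤ 5 * ‖f x - f y‖ ∧ ‖f x - f y‖ ≤ K * dist x y) ∧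
      (∃ (n : ℕ) (f : X → EuclideanSpace ℝ (Fin n)), ∀ x ∈ B, ∀ y ∈ B,
        dist x y ≤ 5 * ‖f x - f y‖ ∧ ‖f x - f y‖ ≤ L * dist x y) ∧
      ∀ (H : Type u) (_ : NormedAddCommGroup H) (_ : InnerProductSpace ℝ H) (f : X → H)
        (s D : ℝ), 0 < s → (∀ x y, s * dist x y ≤ ‖f x - f y‖ ∧ ‖f x - f y‖ ≤ s * D * dist x y) →
        K * L ≤ 60 * D := by
  classical
  set δ : ℝ := (max K L) ^ 2 with hδ
  have hKm : K ≤ max K L := le_max_left _ _
  have hLm : L ≤ max K L := le_max_right _ _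
  have hKδ : K ^ 2 ≤ δ := pow_le_pow_left₀ (by linarith) hKm 2
  have hLδ : L ^ 2 ≤ δ := pow_le_pow_left₀ (by linarith) hLm 2
  have hδ1 : 1 ≤ δ := by nlinarith
  set b : ℕ := ⌈δ ^ 2⌉₊ with hb
  have hbδ : δ ^ 2 ≤ b := Nat.le_ceil _
  set η : ℝ := b + 2 * δ with hη
  have hKη : K ^ 2 ≤ η := by
    have : (0 : ℝ) ≤ b := Nat.cast_nonneg _
    linarith
  have hLη : L ^ 2 ≤ η := by
    have : (0 : ℝ) ≤ b := Nat.cast_nonneg _
    linarith
  obtain ⟨k, hk⟩ : ∃ k : ℕ, 112 * K ^ 2 ≤ (2 : ℝ) ^ (k + 1) := by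
    obtain ⟨k, hk⟩ := pow_unbounded_of_one_lt (112 * K ^ 2) (one_lt_two : (1 : ℝ) < 2)
    refine ⟨k, hk.le.trans ?_⟩
    exact pow_le_pow_right₀ (by norm_num) (by omega)
  obtain ⟨N, R, hN, hRN, hR⟩ := exists_net (I := Fin b × Fin (2 ^ (k + 1))) (δ := δ) (by linarith)
  have mα : IsMT (phi L K η) := phi_isMT hL hK hLη
  have mβ : IsMT (phi K L η) := phi_isMT hK hL hKη
  have hsep : ∀ x ∈ N, ∀ y ∈ N, hd x y = 0 ∨ (1 ≤ hd x y ∧ δ ≤ hd x y) := by
    intro x hx y hy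
    by_cases hxy : x = y
    · left
      rw [hxy, hd_self]
    · right
      have := hN x hx y hy hxy
      exact ⟨by linarith, this⟩
  have hone : ∀ x y : Fin b × Fin (2 ^ (k + 1)) → ZMod 2, hd x y = 0 ∨ 1 ≤ hd x y := by
    intro x y
    by_cases hxy : x = y
    · left
      rw [hxy, hd_self]
    · exact Or.inr (one_le_hd hxy)
  have hcl : ∀ p q : Sp (Fin b × Fin (2 ^ (k + 1))) N η, hd p.y q.y ≤ hd p.x q.x + 2 * η ∧
      hd p.x q.x ≤ hd p.y q.y + 2 * η := by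
    intro p q
    have h1 := p.close
    have h2 := q.close
    have h3 := hd_tri p.y p.x q.y
    have h4 := hd_tri p.x q.x q.y
    have h5 := hd_tri p.x p.y q.x
    have h6 := hd_tri p.y q.y q.x
    rw [hd_comm p.y p.x] at h3
    rw [hd_comm q.y q.x] at h6
    exact ⟨by linarith, by linarith⟩
  let e := LinearIsometryEquiv.piLpCongrLeft 2 ℝ ℝ
    (Fintype.equivFin ((Fin b × Fin (2 ^ (k + 1))) ⊕ (Fin b × Fin (2 ^ (k + 1)))))
  refine ⟨Sp (Fin b × Fin (2 ^ (k + 1))) N η, spM mα mβ, inferInstance, {p | p.x ∈ N},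
    {p | p.y ∈ N}, ?_, ?_, ?_, ?_⟩
  · ext p
    simp only [Set.mem_union, Set.mem_ofPred_eq, Set.mem_univ, iff_true]
    exact p.mem
  · refine ⟨_, fun p => e (emb (K * L) K p), fun p hp q hq => ?_⟩
    have hE : ‖e (emb (K * L) K p) - e (emb (K * L) K q)‖ = ‖emb (K * L) K p - emb (K * L) K q‖ := by
      rw [← map_sub, LinearIsometryEquiv.norm_map]
    rw [hE]
    have hs := hsep _ hp _ hq
    have h := piece_bounds (K := K) (L := L) (η := η) (u := hd p.x q.x) (v := hd p.y q.y)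
      hK hL hKη hLη (by
        rcases hs with h | h
        · exact Or.inl h
        · exact Or.inr ⟨h.1, hLδ.trans h.2⟩) (hone _ _) (hcl p q).1
      (norm_nonneg (emb (K * L) K p - emb (K * L) K q)) (norm_emb _ _ _ _)
    exact ⟨h.2, h.1⟩
  · refine ⟨_, fun p => e (emb L (L * K) p), fun p hp q hq => ?_⟩
    have hE : ‖e (emb L (L * K) p) - e (emb L (L * K) q)‖ = ‖emb L (L * K) p - emb L (L * K) q‖ := by
      rw [← map_sub, LinearIsometryEquiv.norm_map]
    rw [hE]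
    have hs := hsep _ hp _ hq
    have h := piece_bounds (K := L) (L := K) (η := η) (u := hd p.y q.y) (v := hd p.x q.x)
      hL hK hLη hKη (by
        rcases hs with h | h
        · exact Or.inl h
        · exact Or.inr ⟨h.1, hKδ.trans h.2⟩) (hone _ _) (hcl p q).2
      (norm_nonneg (emb L (L * K) p - emb L (L * K) q)) (by
        rw [norm_emb]
        ring)
    have ed : (spM mα mβ).dist p q = phi L K η (hd p.x q.x) + phi K L η (hd p.y q.y) := rfl
    rw [ed, add_comm]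
    exact ⟨h.2, h.1⟩
  · intro H _ _ f s D hs hf
    exact lower_pairs hK hL hKδ hLδ hbδ hη hk hRN hR f hs hf

end Pool.Agent.W532.Union2
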