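import Pool.Agent.W532.Union2.Cube

/-!
# The metric transforms and the space of pairs
-/

set_option autoImplicit false
set_option linter.unusedSectionVars false
set_option linter.style.haveILetI false

namespace Pool.Agent.W532.Union2

open scoped BigOperators
open Finset

/-! ### Metric transforms -/

/-- `min (c u) (s √u)`. -/
noncomputable def psi (c s u : ℝ) : ℝ := min (c * u) (s * √u)

lemma psi_zero (c s : ℝ) : psi c s 0 = 0 := by simp [psi]

lemma psi_nonneg {c s u : ℝ} (hc : 0 ≤ c) (hs : 0 ≤ s) (hu : 0 ≤ u) : 0 ≤ psi c s u :=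
  le_min (mul_nonneg hc hu) (mul_nonneg hs (Real.sqrt_nonneg u))

lemma psi_mono {c s u v : ℝ} (hc : 0 ≤ c) (hs : 0 ≤ s) (huv : u ≤ v) : psi c s u ≤ psi c s v :=
  min_le_min (mul_le_mul_of_nonneg_left huv hc)
    (mul_le_mul_of_nonneg_left (Real.sqrt_le_sqrt huv) hs)

lemma psi_aux {c s u v : ℝ} (hc : 0 ≤ c) (hs : 0 ≤ s) (hu : 0 ≤ u) (hv : 0 ≤ v)
    (h : s * √u ≤ c * u) : psi c s (u + v) ≤ s * √u + c * v := by
  have ha := Real.sqrt_nonneg u
  have hb := Real.sqrt_nonneg (u + v)
  have ha2 := Real.sq_sqrt hu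
  have hb2 := Real.sq_sqrt (add_nonneg hu hv)
  have hab : √u ≤ √(u + v) := Real.sqrt_le_sqrt (by linarith)
  rcases ha.eq_or_lt with h0 | h0
  · have hu0 : u = 0 := by rw [← ha2, ← h0]; norm_num
    subst hu0
    rw [← h0, mul_zero, zero_add, zero_add]
    exact min_le_left _ _
  · refine (min_le_right _ _).trans ?_
    have h1 : s ≤ c * √u := by
      by_contra hcon
      push Not at hcon
      have : c * √u * √u < s * √u := mul_lt_mul_of_pos_right hcon h0
      rw [mul_assoc, ← pow_two, ha2] at this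
      linarith
    nlinarith [mul_nonneg (sub_nonneg.mpr h1) (sub_nonneg.mpr hab),
      mul_nonneg hc (mul_nonneg hb (sub_nonneg.mpr hab))]

lemma sqrt_add_le' {u v : ℝ} (hu : 0 ≤ u) (hv : 0 ≤ v) : √(u + v) ≤ √u + √v := by
  rw [Real.sqrt_le_left (by positivity)]
  have h1 := Real.sq_sqrt hu
  have h2 := Real.sq_sqrt hv
  nlinarith [mul_nonneg (Real.sqrt_nonneg u) (Real.sqrt_nonneg v)]

lemma psi_sub {c s u v : ℝ} (hc : 0 ≤ c) (hs : 0 ≤ s) (hu : 0 ≤ u) (hv : 0 ≤ v) :
    psi c s (u + v) ≤ psi c s u + psi c s v := by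
  rcases le_total (s * √u) (c * u) with h1 | h1 <;> rcases le_total (s * √v) (c * v) with h2 | h2
  · rw [psi, psi, psi, min_eq_right h1, min_eq_right h2]
    refine (min_le_right _ _).trans ?_
    rw [← mul_add]
    exact mul_le_mul_of_nonneg_left (sqrt_add_le' hu hv) hs
  · have h3 := psi_aux hc hs hu hv h1
    rw [psi, psi, psi, min_eq_right h1, min_eq_left h2]
    exact h3
  · have h3 := psi_aux hc hs hv hu h2
    rw [add_comm v u] at h3
    rw [psi, psi, psi, min_eq_left h1, min_eq_right h2]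
    rw [psi] at h3
    linarith
  · rw [psi, psi, psi, min_eq_left h1, min_eq_left h2]
    refine (min_le_left _ _).trans ?_
    rw [mul_add]

/-- A function which transforms the Hamming distance into a metric. -/
structure IsMT (f : ℝ → ℝ) : Prop where
  zero : f 0 = 0
  pos : ∀ u, 1 ≤ u → 0 < f u
  mono : ∀ u v, u ≤ v → f u ≤ f v
  sub : ∀ u v, 0 ≤ u → 0 ≤ v → f (u + v) ≤ f u + f v

lemma IsMT.nonneg {f : ℝ → ℝ} (h : IsMT f) {u : ℝ} (hu : 0 ≤ u) : 0 ≤ f u := by
  have := h.mono 0 u hu
  rwa [h.zero] at this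

/-- The metric transform: slopes `1`, then `K`, then `K L` in front of `√u`. -/
noncomputable def phi (K L η u : ℝ) : ℝ := psi 1 K u + psi (K / (2 * √η)) (K * L) u

section Phi

variable {K L η : ℝ} (hK : 1 ≤ K) (hL : 1 ≤ L) (hη : K ^ 2 ≤ η)

include hK hL hη

lemma eta_pos : 0 < √η := Real.sqrt_pos.mpr (by nlinarith)

lemma kappa_nonneg : 0 ≤ K / (2 * √η) := by
  have := eta_pos hK hL hη
  positivity

lemma phi_isMT : IsMT (phi K L η) where
  zero := by simp [phi, psi_zero]
  pos u hu := by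
    have h1 : 0 < psi 1 K u := by
      refine lt_min (by linarith) (mul_pos (by linarith) (Real.sqrt_pos.mpr (by linarith)))
    have h2 := psi_nonneg (u := u) (kappa_nonneg hK hL hη)
      (show 0 ≤ K * L by nlinarith) (by linarith)
    unfold phi
    linarith
  mono u v huv := add_le_add (psi_mono zero_le_one (by linarith) huv)
    (psi_mono (kappa_nonneg hK hL hη) (by nlinarith) huv)
  sub u v hu hv := by
    have h1 := psi_sub (c := 1) (s := K) zero_le_one (by linarith) hu hv
    have h2 := psi_sub (c := K / (2 * √η)) (s := K * L) (kappa_nonneg hK hL hη) (by nlinarith) hu hv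
    unfold phi
    linarith

lemma le_phi {u : ℝ} (hu : 1 ≤ u) : √u ≤ phi K L η u := by
  have h1 : √u ≤ psi 1 K u := by
    refine le_min ?_ ?_
    · rw [one_mul, Real.sqrt_le_left (by linarith)]
      nlinarith
    · nlinarith [Real.sqrt_nonneg u]
  have h2 := psi_nonneg (u := u) (kappa_nonneg hK hL hη) (show 0 ≤ K * L by nlinarith) (by linarith)
  unfold phi
  linarith

lemma kappa_mul {u : ℝ} (hu : 0 ≤ u) : K / (2 * √η) * u = K * √u * (√u / (2 * √η)) := by
  have h1 := Real.mul_self_sqrt hu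
  have h2 := eta_pos hK hL hη
  field_simp
  rw [pow_two, h1]

lemma phi_le_small {u : ℝ} (hu : 0 ≤ u) (hu2 : u ≤ 4 * η) : phi K L η u ≤ 2 * K * √u := by
  have h1 : psi 1 K u ≤ K * √u := min_le_right _ _
  have h2 : psi (K / (2 * √η)) (K * L) u ≤ K * √u := by
    refine (min_le_left _ _).trans ?_
    rw [kappa_mul hK hL hη hu]
    have h3 : √u / (2 * √η) ≤ 1 := by
      have := eta_pos hK hL hη
      rw [div_le_one (by positivity), Real.sqrt_le_left (by positivity), mul_pow,
        Real.sq_sqrt (by nlinarith)]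
      linarith
    have h4 : 0 ≤ K * √u := mul_nonneg (by linarith) (Real.sqrt_nonneg u)
    nlinarith
  unfold phi
  linarith

lemma phi_le {u : ℝ} : phi K L η u ≤ 2 * K * L * √u := by
  have h1 : psi 1 K u ≤ K * √u := min_le_right _ _
  have h2 : psi (K / (2 * √η)) (K * L) u ≤ K * L * √u := min_le_right _ _
  have h3 : 0 ≤ K * √u := mul_nonneg (by linarith) (Real.sqrt_nonneg u)
  unfold phi
  nlinarith

lemma le_phi_mid {u : ℝ} (hu : K ^ 2 ≤ u) : K * √u ≤ phi K L η u := by
  have h1 : K * √u ≤ psi 1 K u := by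
    refine le_min ?_ le_rfl
    have hu0 : 0 ≤ u := by nlinarith
    have h2 : K ≤ √u := Real.le_sqrt_of_sq_le hu
    have h3 := Real.mul_self_sqrt hu0
    nlinarith [Real.sqrt_nonneg u]
  have h2 := psi_nonneg (u := u) (kappa_nonneg hK hL hη) (show 0 ≤ K * L by nlinarith)
    (by nlinarith)
  unfold phi
  linarith

lemma le_phi_large {u : ℝ} (hu : 4 * η * L ^ 2 ≤ u) : K * L * √u ≤ phi K L η u := by
  have hη0 : 0 < η := by nlinarith
  have hu0 : 0 ≤ u := by nlinarith [sq_nonneg L, mul_nonneg hη0.le (sq_nonneg L)]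
  have h0 := eta_pos hK hL hη
  have h1 : K * L * √u ≤ psi (K / (2 * √η)) (K * L) u := by
    refine le_min ?_ le_rfl
    rw [kappa_mul hK hL hη hu0]
    have h2 : L ≤ √u / (2 * √η) := by
      rw [le_div_iff₀ (by positivity)]
      refine Real.le_sqrt_of_sq_le ?_
      have := Real.sq_sqrt hη0.le
      nlinarith
    have h3 : 0 ≤ K * √u := mul_nonneg (by linarith) (Real.sqrt_nonneg u)
    nlinarith
  have h2 := psi_nonneg (u := u) zero_le_one (show 0 ≤ K by linarith) hu0
  unfold phi
  linarith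

lemma phi_two : phi K L η 2 ≤ 3 := by
  have h0 := eta_pos hK hL hη
  have h1 : psi 1 K 2 ≤ 2 := (min_le_left _ _).trans (by norm_num)
  have h2 : psi (K / (2 * √η)) (K * L) 2 ≤ 1 := by
    refine (min_le_left _ _).trans ?_
    have h3 : K ≤ √η := Real.le_sqrt_of_sq_le hη
    rw [div_mul_eq_mul_div, div_le_one (by positivity)]
    linarith
  unfold phi
  linarith

end Phi

/-! ### The space -/

/-- The pairs `(x, y)` with one member in the net `N` and at Hamming distance at most `η`. -/
structure Sp (I : Type) [Fintype I] [DecidableEq I] (N : Set (I → ZMod 2)) (η : ℝ) where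
  /-- first member -/
  x : I → ZMod 2
  /-- second member -/
  y : I → ZMod 2
  mem : x ∈ N ∨ y ∈ N
  close : hd x y ≤ η

variable {I : Type} [Fintype I] [DecidableEq I] {N : Set (I → ZMod 2)} {η : ℝ}

lemma Sp.ext' {p q : Sp I N η} (hx : p.x = q.x) (hy : p.y = q.y) : p = q := by
  cases p
  cases q
  simp only at hx hy
  subst hx
  subst hy
  rfl

instance : Finite (Sp I N η) :=
  Finite.of_injective (fun p : Sp I N η => (p.x, p.y)) fun p q h => by
    simp only [Prod.mk.injEq] at h
    exact Sp.ext' h.1 h.2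

/-- The metric `α (hd x x') + β (hd y y')`. -/
noncomputable def spM {α β : ℝ → ℝ} (hα : IsMT α) (hβ : IsMT β) : MetricSpace (Sp I N η) where
  dist p q := α (hd p.x q.x) + β (hd p.y q.y)
  dist_self p := by
    show α (hd p.x p.x) + β (hd p.y p.y) = 0
    rw [hd_self, hd_self, hα.zero, hβ.zero, add_zero]
  dist_comm p q := by
    show α (hd p.x q.x) + β (hd p.y q.y) = α (hd q.x p.x) + β (hd q.y p.y)
    rw [hd_comm, hd_comm p.y]
  dist_triangle p q r := by
    show α (hd p.x r.x) + β (hd p.y r.y) ≤ (α (hd p.x q.x) + β (hd p.y q.y)) +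
      (α (hd q.x r.x) + β (hd q.y r.y))
    have h1 := (hα.mono _ _ (hd_tri p.x q.x r.x)).trans (hα.sub _ _ (hd_nonneg _ _) (hd_nonneg _ _))
    have h2 := (hβ.mono _ _ (hd_tri p.y q.y r.y)).trans (hβ.sub _ _ (hd_nonneg _ _) (hd_nonneg _ _))
    linarith
  eq_of_dist_eq_zero {p q} h := by
    change α (hd p.x q.x) + β (hd p.y q.y) = 0 at h
    have h1 := hα.nonneg (hd_nonneg p.x q.x)
    have h2 := hβ.nonneg (hd_nonneg p.y q.y)
    refine Sp.ext' ?_ ?_
    · by_contra hne
      have := hα.pos _ (one_le_hd hne)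
      linarith
    · by_contra hne
      have := hβ.pos _ (one_le_hd hne)
      linarith

/-- The Euclidean map with weights `u`, `w` on the two members. -/
noncomputable def emb (u w : ℝ) (p : Sp I N η) : EuclideanSpace ℝ (I ⊕ I) :=
  WithLp.toLp 2 fun i => Sum.elim (fun j => u * if p.x j = 0 then 0 else 1)
    (fun j => w * if p.y j = 0 then 0 else 1) i

lemma norm_emb (u w : ℝ) (p q : Sp I N η) :
    ‖emb u w p - emb u w q‖ ^ 2 = u ^ 2 * hd p.x q.x + w ^ 2 * hd p.y q.y := by
  rw [← norm_iota, ← norm_iota, EuclideanSpace.real_norm_sq_eq, EuclideanSpace.real_norm_sq_eq,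
    EuclideanSpace.real_norm_sq_eq, Fintype.sum_sum_type, Finset.mul_sum, Finset.mul_sum]
  congr 1
  · refine Finset.sum_congr rfl fun i _ => ?_
    have e : (emb u w p - emb u w q).ofLp (Sum.inl i) = (u * if p.x i = 0 then (0 : ℝ) else 1)
      - (u * if q.x i = 0 then 0 else 1) := rfl
    have e' : (iota p.x - iota q.x).ofLp i = (if p.x i = 0 then (0 : ℝ) else 1)
      - (if q.x i = 0 then 0 else 1) := rfl
    rw [e, e']
    ring
  · refine Finset.sum_congr rfl fun i _ => ?_
    have e : (emb u w p - emb u w q).ofLp (Sum.inr i) = (w * if p.y i = 0 then (0 : ℝ) else 1)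
      - (w * if q.y i = 0 then 0 else 1) := rfl
    have e' : (iota p.y - iota q.y).ofLp i = (if p.y i = 0 then (0 : ℝ) else 1)
      - (if q.y i = 0 then 0 else 1) := rfl
    rw [e, e']
    ring

/-- The numerical comparison behind the embeddings of the pieces. -/
lemma piece_bounds {K L η u v : ℝ} (hK : 1 ≤ K) (hL : 1 ≤ L) (hηK : K ^ 2 ≤ η)
    (hηL : L ^ 2 ≤ η) (hu : u = 0 ∨ (1 ≤ u ∧ L ^ 2 ≤ u)) (hv : v = 0 ∨ 1 ≤ v)
    (hclose : v ≤ u + 2 * η) {E : ℝ} (hE : 0 ≤ E)
    (hE2 : E ^ 2 = (K * L) ^ 2 * u + K ^ 2 * v) :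
    E ≤ K * (phi L K η u + phi K L η v) ∧ phi L K η u + phi K L η v ≤ 5 * E := by
  have hu0 : 0 ≤ u := by
    rcases hu with h | h
    · exact h.ge
    · linarith [h.1]
  have hv0 : 0 ≤ v := by
    rcases hv with h | h
    · exact h.ge
    · linarith
  have h1 : L * √u ≤ phi L K η u := by
    rcases hu with h | h
    · rw [h, (phi_isMT hL hK hηL).zero]
      simp
    · exact le_phi_mid hL hK hηL h.2
  have h2 : √v ≤ phi K L η v := by
    rcases hv with h | h
    · rw [h, (phi_isMT hK hL hηK).zero]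
      simp
    · exact le_phi hK hL hηK h
  have hsu := Real.sq_sqrt hu0
  have hsv := Real.sq_sqrt hv0
  have hsu0 := Real.sqrt_nonneg u
  have hsv0 := Real.sqrt_nonneg v
  have hKL : 0 ≤ K * L := by nlinarith
  have hK0 : 0 ≤ K := by linarith
  refine ⟨?_, ?_⟩
  · have h3 : E ≤ K * (L * √u + √v) := by
      refine le_of_sq_le_sq ?_ (by positivity)
      rw [hE2]
      nlinarith [mul_nonneg (mul_nonneg hKL hK0) (mul_nonneg hsu0 hsv0)]
    refine h3.trans (mul_le_mul_of_nonneg_left (add_le_add h1 h2) hK0)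
  · have h3 : K * L * √u ≤ E := by
      refine le_of_sq_le_sq ?_ hE
      rw [hE2]
      nlinarith [mul_nonneg (sq_nonneg K) hv0]
    have h4 : K * √v ≤ E := by
      refine le_of_sq_le_sq ?_ hE
      rw [hE2]
      nlinarith [mul_nonneg (sq_nonneg (K * L)) hu0]
    have h5 : phi L K η u ≤ 2 * E := by
      have := phi_le hL hK hηL (u := u)
      nlinarith
    have h6 : phi K L η v ≤ 3 * E := by
      rcases le_total v (4 * η) with h | h
      · have := phi_le_small hK hL hηK hv0 h
        linarith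
      · have h7 := phi_le hK hL hηK (u := v)
        have h8 : √v ≤ 3 / 2 * √u := by
          rw [Real.sqrt_le_left (by positivity), mul_pow, hsu]
          linarith
        nlinarith
    linarith

end Pool.Agent.W532.Union2
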